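import Pool.Agent.W2helper8.ZQ.Stm

/-!
# Project ZQ, pieces KB and KD
-/

set_option autoImplicit false

namespace Pool.Agent.W2helper19.ZQ

open Finset Filter Topology MeasureTheory
open Pool.Agent.W2helper8.ZQ

lemma dz_le (θ : ℝ) (j : ℤ) : dz θ ≤ |θ - j| := round_le θ j

/-! ### KD -/

theorem p_kd : S_KD := by
  intro x Q hx hQ
  have hQ0 : 0 < Q := by linarith
  obtain ⟨j, k', hk'0, hk'n, hk'⟩ := Real.exists_int_int_abs_mul_sub_le x
    (n := ⌊Q⌋₊) (Nat.floor_pos.2 hQ)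
  have hex : ∃ k : ℕ, 1 ≤ k ∧ dz (k * x) ≤ 1 / Q := by
    refine ⟨k'.toNat, by omega, ?_⟩
    have h1 : ((k'.toNat : ℕ) : ℝ) = (k' : ℝ) := by
      have : ((k'.toNat : ℕ) : ℤ) = k' := Int.toNat_of_nonneg hk'0.le
      exact_mod_cast this
    rw [h1]
    refine (dz_le _ j).trans (hk'.trans ?_)
    apply one_div_le_one_div_of_le hQ0
    exact (Nat.lt_floor_add_one Q).le
  classical
  set k := Nat.find hex with hk
  obtain ⟨hk1, hkd⟩ := Nat.find_spec hex
  have hmin : ∀ r : ℕ, 1 ≤ r → r < k → 1 / Q < dz (r * x) := by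
    intro r hr1 hr
    have := Nat.find_min hex hr
    push Not at this
    exact this hr1
  have hkQ : (k : ℝ) ≤ Q := by
    have h1 : k ≤ k'.toNat := by
      apply Nat.find_min'
      refine ⟨by omega, ?_⟩
      have h1 : ((k'.toNat : ℕ) : ℝ) = (k' : ℝ) := by
        have : ((k'.toNat : ℕ) : ℤ) = k' := Int.toNat_of_nonneg hk'0.le
        exact_mod_cast this
      rw [h1]
      refine (dz_le _ j).trans (hk'.trans ?_)
      apply one_div_le_one_div_of_le hQ0
      exact (Nat.lt_floor_add_one Q).le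
    have h2 : k ≤ ⌊Q⌋₊ := by omega
    exact (Nat.cast_le.2 h2).trans (Nat.floor_le hQ0.le)
  have hk0 : (0 : ℝ) < k := by exact_mod_cast hk1
  have hkx : 1 ≤ (k : ℝ) * x := by
    have : (1 : ℝ) ≤ k := by exact_mod_cast hk1
    nlinarith
  have hround : 1 ≤ round ((k : ℝ) * x) := by
    have h1 := abs_sub_round ((k : ℝ) * x)
    rw [abs_le] at h1
    have h2 : (0 : ℝ) < (round ((k : ℝ) * x) : ℝ) := by linarith [h1.2]
    have h3 : 0 < round ((k : ℝ) * x) := by exact_mod_cast h2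
    omega
  set h := (round ((k : ℝ) * x)).toNat with hh
  have hhr : (h : ℝ) = (round ((k : ℝ) * x) : ℝ) := by
    have : ((h : ℕ) : ℤ) = round ((k : ℝ) * x) := Int.toNat_of_nonneg (by omega)
    exact_mod_cast this
  have hdist : |(k : ℝ) * x - h| ≤ 1 / Q := by
    rw [hhr]
    exact hkd
  have hcop : Nat.Coprime h k := by
    by_contra hne
    set g := Nat.gcd h k with hg
    have hg0 : 0 < g := Nat.gcd_pos_of_pos_right _ hk1
    have hg1 : 1 < g := by
      rcases Nat.lt_or_ge 1 g with h | h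
      · exact h
      · exact absurd (by omega : g = 1) hne
    obtain ⟨k₁, hk₁⟩ := Nat.gcd_dvd_right h k
    obtain ⟨h₁, hh₁⟩ := Nat.gcd_dvd_left h k
    rw [← hg] at hk₁ hh₁
    have hk₁0 : 1 ≤ k₁ := by
      rcases Nat.eq_zero_or_pos k₁ with h0 | h0
      · rw [h0, mul_zero] at hk₁
        omega
      · exact h0
    have hlt : k₁ < k := by
      rw [hk₁]
      nlinarith
    have h1 := hmin k₁ hk₁0 hlt
    have h2 := dz_le ((k₁ : ℝ) * x) (h₁ : ℤ)
    have hgR : (1 : ℝ) ≤ g := by exact_mod_cast hg0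
    have h3 : (k : ℝ) * x - h = g * ((k₁ : ℝ) * x - h₁) := by
      have e1 : (k : ℝ) = g * k₁ := by exact_mod_cast hk₁
      have e2 : (h : ℝ) = g * h₁ := by exact_mod_cast hh₁
      rw [e1, e2]
      ring
    rw [h3, abs_mul, abs_of_nonneg (by linarith)] at hdist
    have h4 : |(k₁ : ℝ) * x - h₁| ≤ 1 / Q := by
      have h5 : |(k₁ : ℝ) * x - h₁| ≤ g * |(k₁ : ℝ) * x - h₁| :=
        le_mul_of_one_le_left (abs_nonneg _) hgR
      linarith
    rw [Int.cast_natCast] at h2
    linarith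
  refine ⟨h, k, by omega, hk1, hkQ, hdist, hcop, ?_⟩
  intro r hr1 hr
  rw [mul_comm x]
  by_cases hc : Q ≤ 2 * k
  · refine le_trans ?_ (hmin r hr1 hr).le
    exact one_div_le_one_div_of_le hQ0 hc
  · push Not at hc
    set j := round ((r : ℝ) * x) with hj
    have hne : (h : ℤ) * r - j * k ≠ 0 := by
      intro h0
      have h1 : (k : ℤ) ∣ (h : ℤ) * r := ⟨j, by linarith⟩
      have h2 : k ∣ h * r := by exact_mod_cast h1
      have h3 : k ∣ r := (Nat.Coprime.dvd_mul_left hcop.symm).1 h2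
      have := Nat.le_of_dvd hr1 h3
      omega
    have h1 : (1 : ℝ) ≤ |(h : ℝ) * r - j * k| := by
      have : (1 : ℤ) ≤ |(h : ℤ) * r - j * k| := Int.one_le_abs hne
      exact_mod_cast this
    have h2 : (h : ℝ) * r - j * k = k * ((r : ℝ) * x - j) - r * (k * x - h) := by ring
    have h3 : |(h : ℝ) * r - j * k| ≤ k * |(r : ℝ) * x - j| + r * |(k : ℝ) * x - h| := by
      rw [h2]
      refine (abs_sub _ _).trans (le_of_eq ?_)
      rw [abs_mul, abs_mul, abs_of_pos hk0, abs_of_nonneg (Nat.cast_nonneg r : (0 : ℝ) ≤ (r : ℝ))]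
    have h4 : (r : ℝ) * |(k : ℝ) * x - h| ≤ 1 / 2 := by
      have hrk : (r : ℝ) ≤ k := by exact_mod_cast hr.le
      calc (r : ℝ) * |(k : ℝ) * x - h| ≤ k * (1 / Q) :=
            mul_le_mul hrk hdist (abs_nonneg _) hk0.le
        _ ≤ 1 / 2 := by
          rw [mul_one_div, div_le_div_iff₀ hQ0 (by norm_num)]
          linarith
    show 1 / (2 * (k : ℝ)) ≤ |(r : ℝ) * x - j|
    rw [div_le_iff₀ (by positivity)]
    linarith

/-! ### KB -/

lemma sum_G (Y : ℝ) (hY : 0 < Y) (M : ℕ) :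
    ∑ i ∈ range M, 1 / (1 + ((i : ℝ) / Y) ^ 2) ≤ 1 + 2 * Y := by
  have h1 : ∀ M : ℕ, ∑ i ∈ range (M + 1), 1 / (1 + ((i : ℝ) / Y) ^ 2) ≤
      1 + 2 * Y - 2 * Y ^ 2 / (Y + M) := by
    intro M
    induction M with
    | zero =>
      simp
      field_simp
      linarith
    | succ M ih =>
      rw [sum_range_succ]
      have h2 : 1 / (1 + (((M + 1 : ℕ) : ℝ) / Y) ^ 2) ≤
          2 * Y ^ 2 / (Y + M) - 2 * Y ^ 2 / (Y + (M + 1 : ℕ)) := by
        push_cast
        have hM : (0 : ℝ) ≤ M := Nat.cast_nonneg M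
        have e1 : 1 / (1 + (((M : ℝ) + 1) / Y) ^ 2) = Y ^ 2 / (Y ^ 2 + (M + 1) ^ 2) := by
          field_simp
        have e2 : 2 * Y ^ 2 / (Y + M) - 2 * Y ^ 2 / (Y + (M + 1)) =
            Y ^ 2 * (2 / ((Y + M) * (Y + (M + 1)))) := by
          field_simp
          ring
        rw [e1, e2, div_eq_mul_inv]
        apply mul_le_mul_of_nonneg_left _ (by positivity)
        rw [inv_eq_one_div, div_le_div_iff₀ (by positivity) (by positivity)]
        nlinarith [sq_nonneg (Y - (M + 1))]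
      linarith
  rcases Nat.eq_zero_or_pos M with h | h
  · rw [h]
    simp
    linarith
  · obtain ⟨m, rfl⟩ : ∃ m, M = m + 1 := ⟨M - 1, by omega⟩
    have := h1 m
    have h2 : 0 ≤ 2 * Y ^ 2 / (Y + m) := by positivity
    linarith

theorem p_kb : S_KB := by
  refine ⟨8, by norm_num, ?_⟩
  intro x k m₀ y hk hy hsep
  have hk0 : (0 : ℝ) < k := by exact_mod_cast hk
  set s : ℕ → ℝ := fun n => x * n - round (x * n) with hs
  set Y : ℝ := 2 * k * y with hY
  have hY0 : 0 < Y := by positivity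
  let f : ℕ → Bool × ℕ := fun n => (decide (0 ≤ s n), ⌊2 * k * |s n|⌋₊)
  have hsd : ∀ n n' : ℕ, n < n' → n' < n + k → 1 / (2 * (k : ℝ)) ≤ |s n' - s n| := by
    intro n n' h1 h2
    have h3 := hsep (n' - n) (by omega) (by omega)
    refine h3.trans ?_
    have h4 := dz_le (x * ((n' - n : ℕ) : ℝ)) (round (x * n') - round (x * n))
    refine h4.trans (le_of_eq ?_)
    congr 1
    rw [Nat.cast_sub h1.le]
    simp only [hs]
    push_cast
    ring
  have hinj0 : ∀ n n' : ℕ, n < n' → n' < n + k → f n ≠ f n' := by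
    intro n n' h1 h2 h
    have h3 := hsd n n' h1 h2
    simp only [f, Prod.mk.injEq] at h
    obtain ⟨h4, h5⟩ := h
    have h6 : |s n' - s n| = abs (|s n'| - |s n|) := by
      by_cases hn : 0 ≤ s n
      · have hn' : 0 ≤ s n' := by
          rw [decide_eq_true hn] at h4
          exact of_decide_eq_true h4.symm
        rw [abs_of_nonneg hn, abs_of_nonneg hn']
      · have hn' : ¬ 0 ≤ s n' := by
          intro hn'
          rw [decide_eq_true hn', decide_eq_false hn] at h4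
          exact Bool.noConfusion h4
        push Not at hn hn'
        rw [abs_of_neg hn, abs_of_neg hn', ← abs_neg]
        congr 1
        ring
    have h7 : abs (2 * k * |s n'| - 2 * k * |s n|) < 1 := by
      have e1 := Nat.floor_le (by positivity : 0 ≤ 2 * k * |s n|)
      have e2 := Nat.lt_floor_add_one (2 * k * |s n|)
      have e3 := Nat.floor_le (by positivity : 0 ≤ 2 * k * |s n'|)
      have e4 := Nat.lt_floor_add_one (2 * k * |s n'|)
      rw [h5] at e1 e2
      rw [abs_lt]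
      constructor <;> linarith
    rw [← mul_sub, abs_mul, abs_of_pos (by positivity : (0 : ℝ) < 2 * k), ← h6] at h7
    rw [div_le_iff₀ (by positivity)] at h3
    linarith
  have hinj : Set.InjOn f (Ico m₀ (m₀ + k) : Finset ℕ) := by
    intro n hn n' hn' h
    rw [Finset.mem_coe, Finset.mem_Ico] at hn hn'
    rcases lt_trichotomy n n' with h1 | h1 | h1
    · exact absurd h (hinj0 n n' h1 (by omega))
    · exact h1
    · exact absurd h.symm (hinj0 n' n h1 (by omega))
  have hle : ∀ n : ℕ, 1 / (1 + (dz (x * n) / y) ^ 2) ≤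
      1 / (1 + (((f n).2 : ℝ) / Y) ^ 2) := by
    intro n
    have h1 : ((f n).2 : ℝ) ≤ 2 * k * |s n| := Nat.floor_le (by positivity)
    have h2 : ((f n).2 : ℝ) / Y ≤ dz (x * n) / y := by
      have e : dz (x * n) = |s n| := rfl
      rw [e, div_le_div_iff₀ hY0 hy, hY]
      nlinarith
    apply one_div_le_one_div_of_le (by positivity)
    have h3 : (((f n).2 : ℝ) / Y) ^ 2 ≤ (dz (x * n) / y) ^ 2 :=
      pow_le_pow_left₀ (by positivity) h2 2
    linarith
  have hmem : ∀ n, f n ∈ (univ : Finset Bool) ×ˢ range (k + 1) := by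
    intro n
    rw [Finset.mem_product, Finset.mem_range]
    refine ⟨Finset.mem_univ _, ?_⟩
    have h1 : |s n| ≤ 1 / 2 := abs_sub_round _
    have h2 : 2 * k * |s n| ≤ k := by nlinarith
    have h3 : ⌊2 * k * |s n|⌋₊ ≤ k := by
      have := Nat.floor_le_floor h2
      rwa [Nat.floor_natCast] at this
    show ⌊2 * k * |s n|⌋₊ < k + 1
    omega
  calc ∑ n ∈ Ico m₀ (m₀ + k), 1 / (1 + (dz (x * n) / y) ^ 2)
      ≤ ∑ n ∈ Ico m₀ (m₀ + k), 1 / (1 + (((f n).2 : ℝ) / Y) ^ 2) :=
        Finset.sum_le_sum fun n _ => hle n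
    _ = ∑ b ∈ (Ico m₀ (m₀ + k)).image f, 1 / (1 + ((b.2 : ℝ) / Y) ^ 2) := by
        rw [Finset.sum_image hinj]
    _ ≤ ∑ b ∈ (univ : Finset Bool) ×ˢ range (k + 1), 1 / (1 + ((b.2 : ℝ) / Y) ^ 2) := by
        apply Finset.sum_le_sum_of_subset_of_nonneg
        · intro b hb
          rw [Finset.mem_image] at hb
          obtain ⟨n, _, rfl⟩ := hb
          exact hmem n
        · intro b _ _
          positivity
    _ = 2 * ∑ i ∈ range (k + 1), 1 / (1 + ((i : ℝ) / Y) ^ 2) := by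
        rw [Finset.sum_product]
        simp
    _ ≤ 2 * (1 + 2 * Y) := mul_le_mul_of_nonneg_left (sum_G Y hY0 _) (by norm_num)
    _ ≤ 8 * (1 + k * y) := by
        rw [hY]
        nlinarith [mul_pos hk0 hy]

end Pool.Agent.W2helper19.ZQ
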