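import Pool.Agent.W2helper8.ZQ.Stm

/-!
# Project ZQ, piece KC
-/

set_option autoImplicit false

namespace Pool.Agent.W2helper19.ZQ

open Finset Filter Topology MeasureTheory
open Pool.Agent.W2helper8.ZQ

theorem p_kc (h : S_KB) : S_KC := by
  obtain ⟨K, hK, hKB⟩ := h
  refine ⟨16 + 60 * K, by positivity, ?_⟩
  intro T x k hT hx hxT hk hkT hsep
  have hT0 : 0 < T := by linarith
  have hx0 : 0 < x := by linarith
  have hk0 : (0 : ℝ) < k := by exact_mod_cast hk
  have hk1 : (1 : ℝ) ≤ k := by exact_mod_cast hk
  set N := Ns T with hN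
  have hN5 : (N : ℝ) ≤ 5 * T := by
    have := Nat.ceil_lt_add_one (by positivity : 0 ≤ 4 * T)
    have h2 : (N : ℝ) < 4 * T + 1 := this
    linarith
  set sx := Real.sqrt x with hsx
  have hsx1 : 1 ≤ sx := Real.one_le_sqrt.2 hx
  have hsx2 : sx ^ 2 = x := Real.sq_sqrt hx0.le
  have hsx0 : 0 < sx := by linarith
  set S := (Icc 1 N).filter (fun n : ℕ => x * n ≤ 2 * N) with hS
  set f : ℕ → ℝ := fun n => 1 / (n * sx) * (1 / (1 + (T * dz (x * n) / (2 * (x * n))) ^ 2)) with hf
  have hf0 : ∀ n, 0 ≤ f n := fun n => by positivity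
  set I : ℕ := ⌊10 * T / (x * k)⌋₊ with hI
  have hmem : ∀ n ∈ S, n / k ∈ range (I + 1) := by
    intro n hn
    rw [hS, Finset.mem_filter, Finset.mem_Icc] at hn
    rw [Finset.mem_range, Nat.lt_succ_iff]
    apply Nat.le_floor
    have h1 : ((n / k : ℕ) : ℝ) ≤ n / k := Nat.cast_div_le
    refine h1.trans ?_
    rw [div_le_div_iff₀ hk0 (by positivity)]
    have h2 : x * n ≤ 10 * T := by linarith [hn.2]
    nlinarith
  have hNS : NS x T = ∑ i ∈ range (I + 1), ∑ n ∈ S.filter (fun n => n / k = i), f n := by
    rw [Finset.sum_fiberwise_of_maps_to hmem]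
    rfl
  rw [hNS, Finset.sum_range_succ']
  -- the block `0`
  have hb0 : ∑ n ∈ S.filter (fun n => n / k = 0), f n ≤ 16 := by
    have hterm : ∀ n ∈ S.filter (fun n => n / k = 0), f n ≤ 16 * (x * sx) * k ^ 3 / T ^ 2 := by
      intro n hn
      rw [Finset.mem_filter, hS, Finset.mem_filter, Finset.mem_Icc] at hn
      have hn1 : 1 ≤ n := hn.1.1.1
      have hnk : n < k := by
        have := hn.2
        rwa [Nat.div_eq_zero_iff_lt hk] at this
      have hn0 : (0 : ℝ) < n := by exact_mod_cast hn1
      have hnk' : (n : ℝ) ≤ k := by exact_mod_cast hnk.le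
      have h1 := hsep n hn1 hnk
      have h2 : T / (4 * k * (x * n)) ≤ T * dz (x * n) / (2 * (x * n)) := by
        rw [div_le_div_iff₀ (by positivity) (by positivity)]
        have h3 : 1 ≤ 2 * k * dz (x * n) := by
          rw [div_le_iff₀ (by positivity)] at h1
          linarith
        have h4 : 0 < T * (2 * (x * n)) := by positivity
        nlinarith
      have h3 : 1 / (1 + (T * dz (x * n) / (2 * (x * n))) ^ 2) ≤ (4 * k * (x * n)) ^ 2 / T ^ 2 := by
        have h5 : 0 < T / (4 * k * (x * n)) := by positivity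
        have h4 : (T / (4 * k * (x * n))) ^ 2 ≤ 1 + (T * dz (x * n) / (2 * (x * n))) ^ 2 := by
          have := pow_le_pow_left₀ h5.le h2 2
          linarith
        calc 1 / (1 + (T * dz (x * n) / (2 * (x * n))) ^ 2) ≤ 1 / (T / (4 * k * (x * n))) ^ 2 :=
              one_div_le_one_div_of_le (by positivity) h4
          _ = _ := by rw [div_pow, one_div_div]
      calc f n ≤ 1 / (n * sx) * ((4 * k * (x * n)) ^ 2 / T ^ 2) :=
            mul_le_mul_of_nonneg_left h3 (by positivity)
        _ = 16 * (x * sx) * (k ^ 2 * n) / T ^ 2 := by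
            have e : x = sx ^ 2 := hsx2.symm
            rw [e]
            field_simp
            ring
        _ ≤ 16 * (x * sx) * k ^ 3 / T ^ 2 := by
            apply div_le_div_of_nonneg_right _ (by positivity)
            apply mul_le_mul_of_nonneg_left _ (by positivity)
            calc (k : ℝ) ^ 2 * n ≤ k ^ 2 * k := mul_le_mul_of_nonneg_left hnk' (by positivity)
              _ = k ^ 3 := by ring
    have hcard : ((S.filter (fun n => n / k = 0)).card : ℝ) ≤ k := by
      have h1 : S.filter (fun n => n / k = 0) ⊆ range k := by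
        intro n hn
        rw [Finset.mem_filter] at hn
        rw [Finset.mem_range]
        have := hn.2
        rwa [Nat.div_eq_zero_iff_lt hk] at this
      have := Finset.card_le_card h1
      rw [Finset.card_range] at this
      exact_mod_cast this
    have hk4 : (k : ℝ) ^ 4 ≤ T := by
      calc (k : ℝ) ^ 4 ≤ (T ^ (1 / 4 : ℝ)) ^ 4 := pow_le_pow_left₀ hk0.le hkT 4
        _ = T := by
          rw [← Real.rpow_natCast, ← Real.rpow_mul hT0.le]
          norm_num
    have hxsx : x * sx ≤ T := by
      have h1 : sx ≤ x := by nlinarith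
      calc x * sx ≤ x * x := mul_le_mul_of_nonneg_left h1 hx0.le
        _ ≤ Real.sqrt T * Real.sqrt T := mul_le_mul hxT hxT hx0.le (Real.sqrt_nonneg _)
        _ = T := Real.mul_self_sqrt hT0.le
    calc ∑ n ∈ S.filter (fun n => n / k = 0), f n
        ≤ (S.filter (fun n => n / k = 0)).card • (16 * (x * sx) * k ^ 3 / T ^ 2) :=
          Finset.sum_le_card_nsmul _ _ _ hterm
      _ ≤ k * (16 * (x * sx) * k ^ 3 / T ^ 2) := by
          rw [nsmul_eq_mul]
          exact mul_le_mul_of_nonneg_right hcard (by positivity)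
      _ = 16 * ((x * sx) * k ^ 4) / T ^ 2 := by ring
      _ ≤ 16 * (T * T) / T ^ 2 := by
          apply div_le_div_of_nonneg_right _ (by positivity)
          apply mul_le_mul_of_nonneg_left _ (by norm_num)
          exact mul_le_mul hxsx hk4 (by positivity) hT0.le
      _ = 16 := by
          field_simp
  -- the other blocks
  have hbi : ∀ i : ℕ, ∑ n ∈ S.filter (fun n => n / k = i + 1), f n ≤
      K / (k * sx) * (1 / ((i : ℝ) + 1)) + 4 * K * sx * k / T := by
    intro i
    have hi0 : (0 : ℝ) < (i : ℝ) + 1 := by positivity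
    set y : ℝ := 4 * x * (i + 1) * k / T with hy
    have hy0 : 0 < y := by positivity
    have hsub : S.filter (fun n => n / k = i + 1) ⊆ Ico ((i + 1) * k) ((i + 1) * k + k) := by
      intro n hn
      rw [Finset.mem_filter] at hn
      have h1 := Nat.div_add_mod n k
      have h2 := Nat.mod_lt n hk
      rw [hn.2] at h1
      have h3 : k * (i + 1) = (i + 1) * k := mul_comm _ _
      rw [Finset.mem_Ico, ← h3]
      constructor
      · exact Nat.le.intro h1
      · calc n = k * (i + 1) + n % k := h1.symm
          _ < k * (i + 1) + k := Nat.add_lt_add_left h2 _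
    have hterm : ∀ n ∈ S.filter (fun n => n / k = i + 1), f n ≤
        1 / ((i + 1) * k * sx) * (1 / (1 + (dz (x * n) / y) ^ 2)) := by
      intro n hn
      have h1 := hsub hn
      rw [Finset.mem_Ico] at h1
      have h2 : ((i : ℝ) + 1) * k ≤ n := by exact_mod_cast h1.1
      have h3 : (n : ℝ) ≤ 2 * ((i + 1) * k) := by
        have h4 : (n : ℝ) < (i + 1) * k + k := by exact_mod_cast h1.2
        nlinarith [Nat.cast_nonneg (α := ℝ) i]
      have hn0 : (0 : ℝ) < n := lt_of_lt_of_le (by positivity) h2
      simp only [hf]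
      apply mul_le_mul
      · apply one_div_le_one_div_of_le (by positivity)
        exact mul_le_mul_of_nonneg_right h2 hsx0.le
      · apply one_div_le_one_div_of_le (by positivity)
        have h5 : dz (x * n) / y ≤ T * dz (x * n) / (2 * (x * n)) := by
          rw [hy, div_div_eq_mul_div, div_le_div_iff₀ (by positivity) (by positivity)]
          have hd := dz_nonneg (x * n)
          have h6 : 2 * (x * n) ≤ 4 * x * (i + 1) * k := by nlinarith
          calc dz (x * n) * T * (2 * (x * n)) ≤ dz (x * n) * T * (4 * x * (i + 1) * k) :=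
                mul_le_mul_of_nonneg_left h6 (by positivity)
            _ = T * dz (x * n) * (4 * x * (i + 1) * k) := by ring
        have h6 : 0 ≤ dz (x * n) / y := div_nonneg (dz_nonneg _) hy0.le
        have h7 := pow_le_pow_left₀ h6 h5 2
        linarith
      · positivity
      · positivity
    calc ∑ n ∈ S.filter (fun n => n / k = i + 1), f n
        ≤ ∑ n ∈ S.filter (fun n => n / k = i + 1),
            1 / ((i + 1) * k * sx) * (1 / (1 + (dz (x * n) / y) ^ 2)) :=
          Finset.sum_le_sum hterm
      _ ≤ ∑ n ∈ Ico ((i + 1) * k) ((i + 1) * k + k),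
            1 / ((i + 1) * k * sx) * (1 / (1 + (dz (x * n) / y) ^ 2)) :=
          Finset.sum_le_sum_of_subset_of_nonneg hsub fun n _ _ => by positivity
      _ = 1 / ((i + 1) * k * sx) * ∑ n ∈ Ico ((i + 1) * k) ((i + 1) * k + k),
            1 / (1 + (dz (x * n) / y) ^ 2) := by rw [Finset.mul_sum]
      _ ≤ 1 / ((i + 1) * k * sx) * (K * (1 + k * y)) :=
          mul_le_mul_of_nonneg_left (hKB x k _ y hk hy0 hsep) (by positivity)
      _ = K / (k * sx) * (1 / ((i : ℝ) + 1)) + 4 * K * (x / sx) * k / T := by
          rw [hy]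
          field_simp
      _ = K / (k * sx) * (1 / ((i : ℝ) + 1)) + 4 * K * sx * k / T := by
          have : x / sx = sx := by
            rw [div_eq_iff hsx0.ne', ← hsx2]
            ring
          rw [this]
  have hIle : (I : ℝ) ≤ 10 * T / (x * k) := Nat.floor_le (by positivity)
  have hlog2 : (0.69 : ℝ) < Real.log T := by
    have h1 := Real.log_two_gt_d9
    have h2 : Real.log 2 ≤ Real.log T := Real.log_le_log (by norm_num) hT
    linarith
  have hharm : ∑ i ∈ range I, 1 / ((i : ℝ) + 1) ≤ 20 * Real.log T := by
    rcases Nat.eq_zero_or_pos I with h0 | h0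
    · rw [h0]
      simp
      linarith
    · have h1 := harmonic_le_one_add_log I
      have h2 : ((harmonic I : ℚ) : ℝ) = ∑ i ∈ range I, 1 / ((i : ℝ) + 1) := by
        unfold harmonic
        push_cast
        refine Finset.sum_congr rfl fun i _ => ?_
        rw [one_div]
      rw [h2] at h1
      have h3 : (I : ℝ) ≤ 10 * T := by
        refine hIle.trans ?_
        rw [div_le_iff₀ (by positivity)]
        have : 1 ≤ x * k := by nlinarith
        nlinarith
      have h4 : Real.log I ≤ Real.log (10 * T) :=
        Real.log_le_log (by exact_mod_cast h0) h3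
      have h5 : Real.log (10 * T) = Real.log 10 + Real.log T :=
        Real.log_mul (by norm_num) hT0.ne'
      have h6 : Real.log 10 ≤ 4 * Real.log 2 := by
        have : Real.log 10 ≤ Real.log (2 ^ 4) := Real.log_le_log (by norm_num) (by norm_num)
        rwa [Real.log_pow] at this
      have h7 := Real.log_two_lt_d9
      linarith
  have hmain : ∑ i ∈ range I, ∑ n ∈ S.filter (fun n => n / k = i + 1), f n ≤
      20 * K * (Real.log T / (k * sx)) + 40 * K := by
    calc ∑ i ∈ range I, ∑ n ∈ S.filter (fun n => n / k = i + 1), f n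
        ≤ ∑ i ∈ range I, (K / (k * sx) * (1 / ((i : ℝ) + 1)) + 4 * K * sx * k / T) :=
          Finset.sum_le_sum fun i _ => hbi i
      _ = K / (k * sx) * ∑ i ∈ range I, 1 / ((i : ℝ) + 1) + I * (4 * K * sx * k / T) := by
          rw [Finset.sum_add_distrib, ← Finset.mul_sum, Finset.sum_const, Finset.card_range,
            nsmul_eq_mul]
      _ ≤ K / (k * sx) * (20 * Real.log T) + 10 * T / (x * k) * (4 * K * sx * k / T) := by
          apply add_le_add
          · exact mul_le_mul_of_nonneg_left hharm (by positivity)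
          · exact mul_le_mul_of_nonneg_right hIle (by positivity)
      _ = 20 * K * (Real.log T / (k * sx)) + 40 * K * (sx / x) := by
          field_simp
          ring
      _ ≤ 20 * K * (Real.log T / (k * sx)) + 40 * K := by
          have : sx / x ≤ 1 := by
            rw [div_le_one hx0]
            nlinarith
          nlinarith
  have hL : 0 ≤ Real.log T / (k * sx) := by
    apply div_nonneg (by linarith) (by positivity)
  calc ∑ i ∈ range I, ∑ n ∈ S.filter (fun n => n / k = i + 1), f n +
        ∑ n ∈ S.filter (fun n => n / k = 0), f n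
      ≤ 20 * K * (Real.log T / (k * sx)) + 40 * K + 16 := add_le_add hmain hb0
    _ ≤ (16 + 60 * K) * (1 + Real.log T / (k * sx)) := by nlinarith

end Pool.Agent.W2helper19.ZQ
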